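import Mathlib

/-!
Graded sequences of ideals in an F-pure ring for which `m * fpt (I m)` has no limit.

The ring is the local ring at the origin of the ring of invariants of the polynomial ring
`𝔽_p[x_i, y_i, z]` (`i` in `ℤ/p`) under the cyclic shift of the indices `i`.
-/

set_option autoImplicit false
set_option linter.unusedVariables false
set_option linter.unusedSectionVars false

open Filter Topology
open scoped ENNReal NNReal

namespace Pool.Agent.Results.MP_80c6d6_ag.NormalDomain


/-- The `R`-linear map `R → R^{1/p^e}`, `1 ↦ d^{1/p^e}`, splits.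

An `R`-linear map `ψ : R^{1/p^e} → R` is the same thing as an additive map `φ : R → R` with
`φ (r^{p^e} x) = r φ x`, via `ψ (x^{1/p^e}) = φ x`; it is a splitting exactly when `φ d = 1`.
See `splitsAt_iff_module` below for the version with modules. -/
def SplitsAt (p e : ℕ) {R : Type} [CommRing R] (d : R) : Prop :=
  ∃ φ : R →+ R, (∀ r x : R, φ (r ^ (p ^ e) * x) = r * φ x) ∧ φ d = 1

/-- The pair `(R, a^t)` is F-pure (for a local ring `R`): for all large `e` there is
`d ∈ a^⌈t (p^e - 1)⌉` such that `R → R^{1/p^e}`, `1 ↦ d^{1/p^e}` splits. -/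
def PairFPure (p : ℕ) {R : Type} [CommRing R] (a : Ideal R) (t : ℝ≥0) : Prop :=
  ∀ᶠ e : ℕ in atTop, ∃ d ∈ a ^ ⌈(t : ℝ) * ((p : ℝ) ^ e - 1)⌉₊, SplitsAt p e d

/-- The F-pure threshold, as an element of `[0, ∞]`. -/
noncomputable def fpt (p : ℕ) {R : Type} [CommRing R] (a : Ideal R) : ℝ≥0∞ :=
  sSup {x : ℝ≥0∞ | ∃ t : ℝ≥0, PairFPure p a t ∧ x = (t : ℝ≥0∞)}

/-- `R` is F-pure (for F-finite Noetherian rings: all maps `R → R^{1/p^e}` split). -/
def IsFPure (p : ℕ) (R : Type) [CommRing R] : Prop :=
  ∀ e : ℕ, SplitsAt p e (1 : R)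

/-- `a` meets `R°`, the set of elements in no minimal prime. -/
def MeetsRo {R : Type} [CommRing R] (a : Ideal R) : Prop :=
  ∃ x ∈ a, ∀ P ∈ minimalPrimes R, x ∉ P

/-- Graded sequences of ideals `(I_m)_{m ≥ 1}`. -/
def IsGradedSequence {R : Type} [CommRing R] (I : ℕ → Ideal R) : Prop :=
  (∀ m, 1 ≤ m → MeetsRo (I m)) ∧ ∀ m n, 1 ≤ m → 1 ≤ n → I m * I n ≤ I (m + n)

section sanity

/-- The ring `R` regarded as an `R`-module through the `e`-th iterated Frobenius,
i.e. `F^e_* R`, which is `R^{1/p^e}` (an element `x` stands for `x^{1/p^e}`). -/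
def FPush (p e : ℕ) (R : Type) : Type := R

/-- The element `x^{1/p^e}` of `R^{1/p^e}`. -/
def root (p e : ℕ) {R : Type} (x : R) : FPush p e R := x

instance (p e : ℕ) (R : Type) [CommRing R] : AddCommGroup (FPush p e R) :=
  inferInstanceAs (AddCommGroup R)

/-- `r` acts on `R^{1/p^e}` by `r • x^{1/p^e} = (r^{p^e} x)^{1/p^e}`. -/
noncomputable instance (p e : ℕ) (R : Type) [CommRing R] [Fact p.Prime] [CharP R p] :
    Module R (FPush p e R) :=
  Module.compHom R (iterateFrobenius R p e)

variable {p : ℕ} [Fact p.Prime] {R : Type} [CommRing R] [CharP R p]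

/-- The `R`-linear map `R → R^{1/p^e}`, `1 ↦ d^{1/p^e}`. -/
noncomputable def mapOne (e : ℕ) (d : R) : R →ₗ[R] FPush p e R :=
  LinearMap.toSpanSingleton R (FPush p e R) (root p e d)

theorem smul_root (e : ℕ) (r x : R) :
    r • root p e x = root p e (r ^ (p ^ e) * x) := by
  rfl

theorem mapOne_one (e : ℕ) (d : R) :
    mapOne (p := p) e d 1 = root p e d := by
  simp [mapOne]

/-- Sanity check: `SplitsAt` says that `1 ↦ d^{1/p^e}` has an `R`-linear left inverse. -/
theorem splitsAt_iff_module (e : ℕ) (d : R) :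
    SplitsAt p e d ↔ ∃ ψ : FPush p e R →ₗ[R] R, ψ ∘ₗ mapOne e d = LinearMap.id := by
  constructor
  · rintro ⟨φ, h1, h2⟩
    let ψ : FPush p e R →ₗ[R] R :=
      { toFun := fun x => φ x
        map_add' := fun x y => φ.map_add x y
        map_smul' := fun r x => h1 r x }
    refine ⟨ψ, ?_⟩
    apply LinearMap.ext_ring
    rw [LinearMap.comp_apply, mapOne_one]
    exact h2
  · rintro ⟨ψ, hψ⟩
    refine ⟨{ toFun := fun x => ψ (root p e x), map_zero' := ψ.map_zero,
              map_add' := fun x y => ψ.map_add (root p e x) (root p e y) },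
            fun a b => ?_, ?_⟩
    · exact ψ.map_smul a (root p e b)
    · have := LinearMap.congr_fun hψ 1
      rw [LinearMap.comp_apply, mapOne_one] at this
      exact this

end sanity

section basic

variable {p : ℕ} [Fact p.Prime] {R : Type} [CommRing R] [CharP R p]

theorem splitsAt_iff (e : ℕ) (d : R) :
    SplitsAt p e d ↔
      ∃ φ : R →+ R, (∀ a b : R, φ (a ^ (p ^ e) * b) = a * φ b) ∧ φ d = 1 := Iff.rfl

theorem SplitsAt.comp {e₁ e₂ : ℕ} {f c : R} (h₁ : SplitsAt p e₁ f) (h₂ : SplitsAt p e₂ c) :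
    SplitsAt p (e₁ + e₂) (f ^ (p ^ e₂) * c) := by
  rw [splitsAt_iff] at *
  obtain ⟨φ₁, a₁, b₁⟩ := h₁
  obtain ⟨φ₂, a₂, b₂⟩ := h₂
  refine ⟨φ₁.comp φ₂, fun a b => ?_, ?_⟩
  · rw [AddMonoidHom.comp_apply, pow_add, pow_mul, a₂, a₁]; rfl
  · rw [AddMonoidHom.comp_apply, a₂, b₂, mul_one, b₁]

theorem SplitsAt.of_mul {e : ℕ} {d d' : R} (h : SplitsAt p e (d * d')) : SplitsAt p e d := by
  rw [splitsAt_iff] at *
  obtain ⟨φ, a₁, b₁⟩ := h
  refine ⟨φ.comp (AddMonoidHom.mulLeft d'), fun a b => ?_, ?_⟩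
  · simp only [AddMonoidHom.comp_apply, AddMonoidHom.coe_mulLeft]
    rw [← a₁]; ring_nf
  · simp only [AddMonoidHom.comp_apply, AddMonoidHom.coe_mulLeft]
    rw [mul_comm, b₁]

theorem splitsAt_zero_one : SplitsAt p 0 (1 : R) := by
  rw [splitsAt_iff]
  exact ⟨AddMonoidHom.id R, fun a b => by simp, rfl⟩

theorem splitsAt_pow {z : R} (h : SplitsAt p 1 (z ^ (p - 1))) (e : ℕ) :
    SplitsAt p e (z ^ (p ^ e - 1)) := by
  have hp : 1 ≤ p := (Fact.out : p.Prime).one_lt.le
  induction e with
  | zero => simpa using splitsAt_zero_one (p := p) (R := R)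
  | succ e ih =>
    have := h.comp ih
    rw [← pow_mul, ← pow_add] at this
    have h1 : 1 ≤ p ^ e := Nat.one_le_pow _ _ hp
    have h2 : (p - 1) * p ^ e + (p ^ e - 1) = p ^ (e + 1) - 1 := by
      have : (p - 1) * p ^ e = p ^ (e + 1) - p ^ e := by
        rw [Nat.sub_mul, one_mul, pow_succ']
      have h3 : p ^ e ≤ p ^ (e + 1) := Nat.pow_le_pow_right hp (Nat.le_succ e)
      omega
    rw [h2, add_comm 1 e] at this
    exact this

/-- A splitting of `b * c` prevents `b` from multiplying `u^{[q]}` into `J^{[q]}` for `u ∉ J`. -/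
theorem not_splitsAt_of_mem {e : ℕ} {b c u : R} {J : Ideal R} (hu : u ∉ J)
    (hJ : b * u ^ (p ^ e) ∈ J.map (iterateFrobenius R p e)) : ¬ SplitsAt p e (b * c) := by
  rw [splitsAt_iff]
  rintro ⟨φ, h1, h2⟩
  have key : ∀ x ∈ J.map (iterateFrobenius R p e), ∀ a : R, φ (a * x) ∈ J := by
    intro x hx
    rw [Ideal.map] at hx
    induction hx using Submodule.span_induction with
    | mem x hx =>
      intro a
      obtain ⟨y, hy, rfl⟩ := hx
      have : φ (y ^ p ^ e * a) = y * φ a := h1 y a
      rw [mul_comm a]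
      change φ (iterateFrobenius R p e y * a) ∈ J
      rw [iterateFrobenius_def, this]
      exact J.mul_mem_right _ hy
    | zero => intro a; simp
    | add x y _ _ hx hy => intro a; rw [mul_add, map_add]; exact J.add_mem (hx a) (hy a)
    | smul r x _ hx =>
      intro a
      rw [smul_eq_mul, ← mul_assoc]
      exact hx (a * r)
  apply hu
  have h3 : φ (u ^ (p ^ e) * (b * c)) = u := by rw [h1, h2, mul_one]
  have h4 := key _ hJ c
  have h5 : c * (b * u ^ (p ^ e)) = u ^ (p ^ e) * (b * c) := by ring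
  rw [h5, h3] at h4
  exact h4

theorem not_splitsAt_pow_mul [IsLocalRing R] {e : ℕ} {z c : R}
    (hz : z ∈ IsLocalRing.maximalIdeal R) : ¬ SplitsAt p e (z ^ (p ^ e) * c) := by
  rw [splitsAt_iff]
  rintro ⟨φ, h1, h2⟩
  rw [h1] at h2
  exact (IsLocalRing.mem_maximalIdeal _).1 hz (IsUnit.of_mul_eq_one _ h2)

theorem tendsto_pow_atTop : Tendsto (fun e : ℕ => (p : ℝ) ^ e) atTop atTop :=
  tendsto_pow_atTop_atTop_of_one_lt (by exact_mod_cast (Fact.out : p.Prime).one_lt)

theorem pairFPure_of_lt {z : R} (h : SplitsAt p 1 (z ^ (p - 1))) {m : ℕ} {t : ℝ≥0}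
    (ht : (m : ℝ) * t < 1) : PairFPure p (Ideal.span {z ^ m}) t := by
  have hpos : 0 < 1 - (m : ℝ) * t := by linarith
  have h1 : ∀ᶠ e : ℕ in atTop, (m : ℝ) / (1 - (m : ℝ) * t) + 1 ≤ (p : ℝ) ^ e :=
    (tendsto_pow_atTop (p := p)).eventually_ge_atTop _
  filter_upwards [h1] with e he
  refine ⟨(z ^ m) ^ ⌈(t : ℝ) * ((p : ℝ) ^ e - 1)⌉₊, ?_, ?_⟩
  · exact Ideal.pow_mem_pow (Ideal.mem_span_singleton_self _) _
  · have h2 : m * ⌈(t : ℝ) * ((p : ℝ) ^ e - 1)⌉₊ ≤ p ^ e - 1 := by
      have h3 : (1 : ℝ) ≤ (p : ℝ) ^ e := by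
        have : 0 ≤ (m : ℝ) / (1 - (m : ℝ) * t) := by positivity
        linarith
      have h4 : (⌈(t : ℝ) * ((p : ℝ) ^ e - 1)⌉₊ : ℝ) < (t : ℝ) * ((p : ℝ) ^ e - 1) + 1 := by
        apply Nat.ceil_lt_add_one
        have : (0 : ℝ) ≤ t := t.2
        apply mul_nonneg this; linarith
      have h5 : (m : ℝ) ≤ (1 - (m : ℝ) * t) * ((p : ℝ) ^ e - 1) := by
        have : (m : ℝ) / (1 - (m : ℝ) * t) ≤ (p : ℝ) ^ e - 1 := by linarith
        rw [div_le_iff₀ hpos] at this
        linarith
      have h6 : (m : ℝ) * (⌈(t : ℝ) * ((p : ℝ) ^ e - 1)⌉₊ : ℝ) ≤ (p : ℝ) ^ e - 1 := by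
        have : (0 : ℝ) ≤ m := by positivity
        nlinarith
      have h7 : ((m * ⌈(t : ℝ) * ((p : ℝ) ^ e - 1)⌉₊ : ℕ) : ℝ) ≤ ((p ^ e - 1 : ℕ) : ℝ) := by
        have h8 : 1 ≤ p ^ e := Nat.one_le_pow _ _ (Fact.out : p.Prime).pos
        rw [Nat.cast_sub h8]
        push_cast
        exact h6
      exact_mod_cast h7
    rw [← pow_mul]
    have h9 := splitsAt_pow h e
    have h10 : z ^ (p ^ e - 1) = z ^ (m * ⌈(t : ℝ) * ((p : ℝ) ^ e - 1)⌉₊) *
        z ^ (p ^ e - 1 - m * ⌈(t : ℝ) * ((p : ℝ) ^ e - 1)⌉₊) := by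
      rw [← pow_add]; congr 1; omega
    rw [h10] at h9
    exact h9.of_mul

theorem not_pairFPure_of_gt [IsLocalRing R] {z : R} (hz : z ∈ IsLocalRing.maximalIdeal R)
    {m : ℕ} {t : ℝ≥0} (ht : 1 < (m : ℝ) * t) : ¬ PairFPure p (Ideal.span {z ^ m}) t := by
  intro h
  have hpos : 0 < (m : ℝ) * t - 1 := by linarith
  have h1 : ∀ᶠ e : ℕ in atTop, 1 / ((m : ℝ) * t - 1) + 1 ≤ (p : ℝ) ^ e :=
    (tendsto_pow_atTop (p := p)).eventually_ge_atTop _
  obtain ⟨e, he, d, hd, hs⟩ := (h1.and h).exists
  rw [Ideal.span_singleton_pow, Ideal.mem_span_singleton] at hd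
  obtain ⟨c, rfl⟩ := hd
  have h2 : p ^ e ≤ m * ⌈(t : ℝ) * ((p : ℝ) ^ e - 1)⌉₊ := by
    have h4 : (t : ℝ) * ((p : ℝ) ^ e - 1) ≤ (⌈(t : ℝ) * ((p : ℝ) ^ e - 1)⌉₊ : ℝ) := Nat.le_ceil _
    have h5 : (1 : ℝ) ≤ ((m : ℝ) * t - 1) * ((p : ℝ) ^ e - 1) := by
      have : 1 / ((m : ℝ) * t - 1) ≤ (p : ℝ) ^ e - 1 := by linarith
      rw [div_le_iff₀ hpos] at this
      linarith
    have h6 : (p : ℝ) ^ e ≤ (m : ℝ) * (⌈(t : ℝ) * ((p : ℝ) ^ e - 1)⌉₊ : ℝ) := by
      have : (0 : ℝ) ≤ m := by positivity
      nlinarith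
    exact_mod_cast h6
  rw [← pow_mul] at hs
  have h10 : z ^ (m * ⌈(t : ℝ) * ((p : ℝ) ^ e - 1)⌉₊) * c = z ^ (p ^ e) *
        (z ^ (m * ⌈(t : ℝ) * ((p : ℝ) ^ e - 1)⌉₊ - p ^ e) * c) := by
    rw [← mul_assoc, ← pow_add]; congr 2; omega
  rw [h10] at hs
  exact not_splitsAt_pow_mul hz hs

theorem fpt_even [IsLocalRing R] {z : R} (hz : z ∈ IsLocalRing.maximalIdeal R)
    (h : SplitsAt p 1 (z ^ (p - 1))) {m : ℕ} (hm : 1 ≤ m) :
    fpt p (Ideal.span {z ^ m}) = (m : ℝ≥0∞)⁻¹ := by
  have hm0 : (m : ℝ≥0) ≠ 0 := by exact_mod_cast (by omega : m ≠ 0)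
  have hmpos : (0 : ℝ) < m := by exact_mod_cast hm
  have e1 : (m : ℝ≥0∞)⁻¹ = (((m : ℝ≥0)⁻¹ : ℝ≥0) : ℝ≥0∞) := by
    rw [ENNReal.coe_inv hm0]; simp
  apply le_antisymm
  · apply sSup_le
    rintro x ⟨t, ht, rfl⟩
    rw [e1, ENNReal.coe_le_coe]
    by_contra hcon
    push Not at hcon
    apply not_pairFPure_of_gt hz (m := m) (t := t) _ ht
    have : ((m : ℝ))⁻¹ < t := by
      have := NNReal.coe_lt_coe.2 hcon
      simpa using this
    rw [inv_lt_iff_one_lt_mul₀ hmpos] at this
    linarith
  · rw [e1]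
    apply le_of_forall_lt
    intro c hc
    obtain ⟨t, ht1, ht2⟩ := ENNReal.lt_iff_exists_nnreal_btwn.1 hc
    refine lt_of_lt_of_le ht1 (le_sSup ⟨t, ?_, rfl⟩)
    apply pairFPure_of_lt h
    rw [ENNReal.coe_lt_coe] at ht2
    have : (t : ℝ) < (m : ℝ)⁻¹ := by
      have := NNReal.coe_lt_coe.2 ht2
      simpa using this
    have h3 := mul_lt_mul_of_pos_left this hmpos
    rwa [mul_inv_cancel₀ hmpos.ne'] at h3

theorem fpt_odd {z b u : R} {J : Ideal R} (hu : u ∉ J)
    (hJ : ∀ e : ℕ, b * u ^ (p ^ e) ∈ J.map (iterateFrobenius R p e)) (m : ℕ) :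
    fpt p (Ideal.span {z ^ m * b}) = 0 := by
  refine le_antisymm ?_ (zero_le)
  apply sSup_le
  rintro x ⟨t, ht, rfl⟩
  by_contra hcon
  have htpos : 0 < t := by
    rw [pos_iff_ne_zero]; rintro rfl; simp at hcon
  have h1 : ∀ᶠ e : ℕ in atTop, (2 : ℝ) ≤ (p : ℝ) ^ e :=
    (tendsto_pow_atTop (p := p)).eventually_ge_atTop _
  obtain ⟨e, he, d, hd, hs⟩ := (h1.and ht).exists
  rw [Ideal.span_singleton_pow, Ideal.mem_span_singleton] at hd
  obtain ⟨c, rfl⟩ := hd
  have h2 : 0 < ⌈(t : ℝ) * ((p : ℝ) ^ e - 1)⌉₊ := by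
    rw [Nat.ceil_pos]
    have : (0 : ℝ) < t := htpos
    have : (0 : ℝ) < (p : ℝ) ^ e - 1 := by linarith
    positivity
  obtain ⟨N, hN⟩ : ∃ N, ⌈(t : ℝ) * ((p : ℝ) ^ e - 1)⌉₊ = N + 1 := ⟨_, (Nat.succ_pred_eq_of_pos h2).symm⟩
  rw [hN] at hs
  have h10 : (z ^ m * b) ^ (N + 1) * c = b * (z ^ m * (z ^ m * b) ^ N * c) := by ring
  rw [h10] at hs
  exact not_splitsAt_of_mem hu (hJ e) hs

/-- The graded sequence: `(z^m)` for even `m`, `(z^m b)` for odd `m`. -/
def seq (z b : R) (m : ℕ) : Ideal R :=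
  if Even m then Ideal.span {z ^ m} else Ideal.span {z ^ m * b}

theorem seq_mul (z b : R) (m n : ℕ) : seq z b m * seq z b n ≤ seq z b (m + n) := by
  unfold seq
  by_cases hm : Even m <;> by_cases hn : Even n
  · rw [if_pos hm, if_pos hn, if_pos (hm.add hn), Ideal.span_singleton_mul_span_singleton, pow_add]
  · have : ¬ Even (m + n) := by
      rw [Nat.even_add]; tauto
    rw [if_pos hm, if_neg hn, if_neg this, Ideal.span_singleton_mul_span_singleton, pow_add,
      mul_assoc]
  · have : ¬ Even (m + n) := by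
      rw [Nat.even_add]; tauto
    rw [if_neg hm, if_pos hn, if_neg this, Ideal.span_singleton_mul_span_singleton, pow_add,
      mul_right_comm]
  · have : Even (m + n) := by
      rw [Nat.even_add]; tauto
    rw [if_neg hm, if_neg hn, if_pos this, Ideal.span_singleton_mul_span_singleton, pow_add,
      Ideal.span_singleton_le_span_singleton]
    exact ⟨b * b, by ring⟩

theorem no_limit [IsLocalRing R] {z b u : R} {J : Ideal R}
    (hz : z ∈ IsLocalRing.maximalIdeal R) (h : SplitsAt p 1 (z ^ (p - 1))) (hu : u ∉ J)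
    (hJ : ∀ e : ℕ, b * u ^ (p ^ e) ∈ J.map (iterateFrobenius R p e)) :
    ¬ ∃ L : ℝ≥0∞, Tendsto (fun m : ℕ => (m : ℝ≥0∞) * fpt p (seq z b m)) atTop (𝓝 L) := by
  rintro ⟨L, hL⟩
  have t1 : Tendsto (fun n : ℕ => 2 * n + 2) atTop atTop :=
    tendsto_atTop_mono (f := fun n : ℕ => n) (fun n => by omega) tendsto_id
  have t2 : Tendsto (fun n : ℕ => 2 * n + 1) atTop atTop :=
    tendsto_atTop_mono (f := fun n : ℕ => n) (fun n => by omega) tendsto_id
  have h1 := hL.comp t1
  have h2 := hL.comp t2
  have e1 : (fun m : ℕ => (m : ℝ≥0∞) * fpt p (seq z b m)) ∘ (fun n : ℕ => 2 * n + 2)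
      = fun _ => 1 := by
    funext n
    have : Even (2 * n + 2) := ⟨n + 1, by ring⟩
    simp only [Function.comp_apply, seq, if_pos this]
    rw [fpt_even hz h (by omega)]
    apply ENNReal.mul_inv_cancel
    · exact_mod_cast (by omega : 2 * n + 2 ≠ 0)
    · exact ENNReal.natCast_ne_top _
  have e2 : (fun m : ℕ => (m : ℝ≥0∞) * fpt p (seq z b m)) ∘ (fun n : ℕ => 2 * n + 1)
      = fun _ => 0 := by
    funext n
    have : ¬ Even (2 * n + 1) := by
      rw [Nat.not_even_iff_odd]; exact ⟨n, rfl⟩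
    simp only [Function.comp_apply, seq, if_neg this]
    rw [fpt_odd hu hJ, mul_zero]
  rw [e1] at h1
  rw [e2] at h2
  have l1 := tendsto_nhds_unique h1 tendsto_const_nhds
  have l2 := tendsto_nhds_unique h2 tendsto_const_nhds
  rw [l1] at l2
  exact one_ne_zero l2

end basic

section loc

variable {p : ℕ} [Fact p.Prime] {A : Type} [CommRing A] (M : Submonoid A)

/-- Extension of a `p^{-1}`-linear map to a localization. -/
theorem exists_loc_map (φ : A →+ A) (hφ : ∀ a b : A, φ (a ^ p * b) = a * φ b) :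
    ∃ Φ : Localization M →+ Localization M,
      (∀ a b : Localization M, Φ (a ^ p * b) = a * Φ b) ∧
      ∀ a : A, Φ (algebraMap A _ a) = algebraMap A _ (φ a) := by
  have hp : 1 ≤ p := (Fact.out : p.Prime).one_lt.le
  obtain ⟨n, hn⟩ : ∃ n, p = n + 1 := ⟨p - 1, by omega⟩
  have h1 : ∀ x w : A, (x : A) * φ w = φ (x ^ p * w) := by
    intro x w; rw [hφ]
  let F : Localization M → Localization M := fun x =>
    Localization.liftOn x (fun a s => Localization.mk (φ (a * (s : A) ^ n)) s) (by
      intro a c b d h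
      rw [Localization.r_iff_exists] at h
      obtain ⟨e, he⟩ := h
      rw [Localization.mk_eq_mk_iff, Localization.r_iff_exists]
      refine ⟨e, ?_⟩
      rw [h1, h1, h1, h1, hn]
      congr 1
      have : (e : A) ^ (n + 1) * ((d : A) ^ (n + 1) * (a * (b : A) ^ n))
        = (e : A) ^ n * (d : A) ^ n * (b : A) ^ n * (e * (d * a)) := by ring
      rw [this, he]
      ring)
  have hF : ∀ (a : A) (s : M), F (Localization.mk a s) = Localization.mk (φ (a * (s : A) ^ n)) s :=
    fun a s => Localization.liftOn_mk _ _ _ _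
  have hadd : ∀ x y, F (x + y) = F x + F y := by
    intro x y
    induction x using Localization.induction_on with
    | H x =>
    induction y using Localization.induction_on with
    | H y =>
    obtain ⟨a, s⟩ := x
    obtain ⟨b, t⟩ := y
    simp only
    rw [Localization.add_mk, hF, hF, hF, Localization.add_mk]
    congr 1
    rw [h1, h1, ← map_add, hn]
    congr 1
    push_cast
    ring
  have hmul : ∀ x y, F (x ^ p * y) = x * F y := by
    intro x y
    induction x using Localization.induction_on with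
    | H x =>
    induction y using Localization.induction_on with
    | H y =>
    obtain ⟨a, s⟩ := x
    obtain ⟨b, t⟩ := y
    simp only
    rw [Localization.mk_pow, Localization.mk_mul, hF, hF, Localization.mk_mul]
    rw [Localization.mk_eq_mk_iff, Localization.r_iff_exists]
    refine ⟨1, ?_⟩
    congr 1
    push_cast
    rw [h1, h1, h1]
    congr 1
    rw [hn]
    ring
  refine ⟨AddMonoidHom.mk' F hadd, hmul, ?_⟩
  · intro a
    have h2 : F (Localization.mk a 1) = Localization.mk (φ a) 1 := by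
      rw [hF]; simp
    rw [Localization.mk_one_eq_algebraMap, Localization.mk_one_eq_algebraMap] at h2
    exact h2

theorem ringHom_finite_iff {A B : Type} [CommRing A] [CommRing B] (f : A →+* B) :
    f.Finite ↔ ∃ (n : ℕ) (g : Fin n → B), ∀ b : B, ∃ c : Fin n → A, b = ∑ i, f (c i) * g i := by
  let _ := f.toAlgebra
  have h0 : f.Finite ↔ Module.Finite A B := Iff.rfl
  rw [h0]
  constructor
  · intro h
    obtain ⟨n, g, hg⟩ := Module.Finite.exists_fin (R := A) (M := B)
    refine ⟨n, g, fun b => ?_⟩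
    have hb : b ∈ Submodule.span A (Set.range g) := hg ▸ Submodule.mem_top
    rw [Submodule.mem_span_range_iff_exists_fun] at hb
    obtain ⟨c, hc⟩ := hb
    refine ⟨c, ?_⟩
    rw [← hc]
    rfl
  · rintro ⟨n, g, hg⟩
    rw [Module.finite_def, Submodule.fg_iff_exists_fin_generating_family]
    refine ⟨n, g, ?_⟩
    rw [eq_top_iff]
    intro b _
    rw [Submodule.mem_span_range_iff_exists_fun]
    obtain ⟨c, hc⟩ := hg b
    exact ⟨c, hc.symm⟩

theorem frobenius_finite_loc [CharP A p] [CharP (Localization M) p]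
    (h : (frobenius A p).Finite) : (frobenius (Localization M) p).Finite := by
  have hp : 1 ≤ p := (Fact.out : p.Prime).one_lt.le
  obtain ⟨k, hk⟩ : ∃ k, p = k + 1 := ⟨p - 1, by omega⟩
  rw [ringHom_finite_iff] at h ⊢
  obtain ⟨n, g, hg⟩ := h
  refine ⟨n, fun i => algebraMap A _ (g i), fun b => ?_⟩
  induction b using Localization.induction_on with
  | H b =>
  obtain ⟨a, s⟩ := b
  obtain ⟨c, hc⟩ := hg (a * (s : A) ^ k)
  refine ⟨fun i => Localization.mk (c i) s, ?_⟩
  simp only [frobenius_def] at hc ⊢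
  have h1 : (Localization.mk a s : Localization M) =
      Localization.mk 1 (s ^ p) * algebraMap A _ (a * (s : A) ^ k) := by
    rw [← Localization.mk_one_eq_algebraMap, Localization.mk_mul, Localization.mk_eq_mk_iff,
      Localization.r_iff_exists]
    refine ⟨1, ?_⟩
    push_cast
    rw [hk]
    ring
  rw [h1, hc, map_sum, Finset.mul_sum]
  refine Finset.sum_congr rfl fun i _ => ?_
  rw [map_mul, ← mul_assoc]
  congr 1
  rw [← Localization.mk_one_eq_algebraMap, Localization.mk_mul, Localization.mk_pow]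
  simp

theorem frobenius_finite_of_finiteType [Algebra (ZMod p) A] [CharP A p]
    [Algebra.FiniteType (ZMod p) A] : (frobenius A p).Finite := by
  rw [RingHom.finite_iff_isIntegral_and_finiteType]
  constructor
  · intro x
    refine ⟨Polynomial.X ^ p - Polynomial.C x, Polynomial.monic_X_pow_sub_C x
      (Fact.out : p.Prime).ne_zero, ?_⟩
    simp [frobenius_def]
  · have h1 : ((frobenius A p).comp (algebraMap (ZMod p) A)).FiniteType := by
      have : (frobenius A p).comp (algebraMap (ZMod p) A) = algebraMap (ZMod p) A :=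
        RingHom.ext_zmod _ _
      rw [this, RingHom.finiteType_algebraMap]
      infer_instance
    exact RingHom.FiniteType.of_comp_finiteType h1

end loc

section mv

open MvPolynomial

variable {p : ℕ} [Fact p.Prime] {ι : Type} (i₀ : ι)

/-- Exponents `m` of the form `p β + (p - 1) δ_{i₀}`. -/
def Good (p : ℕ) (i₀ : ι) (m : ι →₀ ℕ) : Prop :=
  (∀ i, i ≠ i₀ → p ∣ m i) ∧ m i₀ % p = p - 1

open Classical in
/-- Value of the splitting on the monomial with exponent `m`. -/
noncomputable def splitT (p : ℕ) (i₀ : ι) (m : ι →₀ ℕ) : MvPolynomial ι (ZMod p) :=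
  if Good p i₀ m then monomial (m.mapRange (fun n => n / p) (Nat.zero_div p)) 1 else 0

/-- The monomial splitting of Frobenius. -/
noncomputable def splitMap (p : ℕ) (i₀ : ι) : MvPolynomial ι (ZMod p) →ₗ[ZMod p]
    MvPolynomial ι (ZMod p) :=
  (basisMonomials ι (ZMod p)).constr (ZMod p) (splitT p i₀)

theorem splitMap_monomial (m : ι →₀ ℕ) (c : ZMod p) :
    splitMap p i₀ (monomial m c) = c • splitT p i₀ m := by
  have h1 : (monomial m c : MvPolynomial ι (ZMod p)) = c • (basisMonomials ι (ZMod p)) m := by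
    rw [coe_basisMonomials, smul_monomial, smul_eq_mul, mul_one]
  rw [h1, map_smul, splitMap, Module.Basis.constr_basis]

theorem splitT_add (α m : ι →₀ ℕ) :
    splitT p i₀ (p • α + m) = monomial α 1 * splitT p i₀ m := by
  have hp : 0 < p := (Fact.out : p.Prime).pos
  have hg : Good p i₀ (p • α + m) ↔ Good p i₀ m := by
    unfold Good
    simp only [Finsupp.add_apply, Finsupp.smul_apply, smul_eq_mul]
    constructor
    · rintro ⟨h1, h2⟩
      refine ⟨fun i hi => (Nat.dvd_add_right (Dvd.intro _ rfl)).1 (h1 i hi), ?_⟩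
      rw [← h2, Nat.mul_add_mod]
    · rintro ⟨h1, h2⟩
      refine ⟨fun i hi => (Nat.dvd_add_right (Dvd.intro _ rfl)).2 (h1 i hi), ?_⟩
      rw [← h2, Nat.mul_add_mod]
  unfold splitT
  by_cases h : Good p i₀ m
  · rw [if_pos h, if_pos (hg.2 h), monomial_mul, one_mul]
    have h2 : (p • α + m).mapRange (fun n => n / p) (Nat.zero_div p) =
        α + m.mapRange (fun n => n / p) (Nat.zero_div p) := by
      ext i
      simp only [Finsupp.mapRange_apply, Finsupp.add_apply, Finsupp.smul_apply, smul_eq_mul]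
      rw [Nat.mul_add_div hp]
    rw [h2]
  · rw [if_neg h, if_neg (mt hg.1 h), mul_zero]

theorem splitMap_pow_mul (a b : MvPolynomial ι (ZMod p)) :
    splitMap p i₀ (a ^ p * b) = a * splitMap p i₀ b := by
  induction a using MvPolynomial.induction_on' with
  | add a₁ a₂ h₁ h₂ =>
    rw [add_pow_char, add_mul, map_add, h₁, h₂, add_mul]
  | monomial α c =>
    induction b using MvPolynomial.induction_on' with
    | add b₁ b₂ h₁ h₂ => rw [mul_add, map_add, h₁, h₂, map_add, mul_add]
    | monomial m d =>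
      rw [monomial_pow, monomial_mul, splitMap_monomial, splitMap_monomial, splitT_add,
        ZMod.pow_card]
      rw [mul_smul_comm, mul_smul, smul_comm, ← smul_mul_assoc, smul_monomial, smul_eq_mul, mul_one]

theorem splitMap_X : splitMap p i₀ (X i₀ ^ (p - 1)) = 1 := by
  classical
  have hp : 1 < p := (Fact.out : p.Prime).one_lt
  rw [X_pow_eq_monomial, splitMap_monomial, one_smul, splitT, if_pos]
  · have : (Finsupp.single i₀ (p - 1)).mapRange (fun n => n / p) (Nat.zero_div p) = 0 := by
      ext i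
      simp only [Finsupp.mapRange_apply, Finsupp.coe_zero, Pi.zero_apply]
      apply Nat.div_eq_of_lt
      rw [Finsupp.single_apply]
      split_ifs <;> omega
    rw [this]; rfl
  · refine ⟨fun i hi => ?_, ?_⟩
    · rw [Finsupp.single_apply, if_neg (fun h => hi h.symm)]; exact dvd_zero p
    · rw [Finsupp.single_eq_same]; exact Nat.mod_eq_of_lt (by omega)

theorem splitMap_rename (π : Equiv.Perm ι) (hπ : π i₀ = i₀) (b : MvPolynomial ι (ZMod p)) :
    splitMap p i₀ (rename π b) = rename π (splitMap p i₀ b) := by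
  induction b using MvPolynomial.induction_on' with
  | add b₁ b₂ h₁ h₂ => rw [map_add, map_add, h₁, h₂, map_add, map_add]
  | monomial m c =>
    rw [rename_monomial, splitMap_monomial, splitMap_monomial, map_smul]
    congr 1
    have hm : ∀ i, (m.mapDomain π) i = m (π.symm i) := by
      intro i
      have := Finsupp.mapDomain_apply π.injective m (π.symm i)
      rwa [Equiv.apply_symm_apply] at this
    have hg : Good p i₀ (m.mapDomain π) ↔ Good p i₀ m := by
      unfold Good
      simp only [hm]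
      have h0 : π.symm i₀ = i₀ := by rw [Equiv.symm_apply_eq, hπ]
      rw [h0]
      constructor
      · rintro ⟨h1, h2⟩
        refine ⟨fun i hi => ?_, h2⟩
        have := h1 (π i) (fun h => hi (π.injective (h.trans hπ.symm)))
        rwa [Equiv.symm_apply_apply] at this
      · rintro ⟨h1, h2⟩
        refine ⟨fun i hi => ?_, h2⟩
        apply h1
        rw [Ne, Equiv.symm_apply_eq, hπ]
        exact hi
    unfold splitT
    by_cases h : Good p i₀ m
    · rw [if_pos h, if_pos (hg.2 h), rename_monomial]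
      have h3 : (m.mapDomain π).mapRange (fun n => n / p) (Nat.zero_div p) =
          (m.mapRange (fun n => n / p) (Nat.zero_div p)).mapDomain π := by
        ext i
        simp only [Finsupp.mapRange_apply, hm]
        have := Finsupp.mapDomain_apply π.injective
          (m.mapRange (fun n => n / p) (Nat.zero_div p)) (π.symm i)
        rw [Equiv.apply_symm_apply] at this
        rw [this, Finsupp.mapRange_apply]
      rw [h3]
    · rw [if_neg h, if_neg (mt hg.1 h), map_zero]

end mv


section inv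

open MvPolynomial

variable (p : ℕ) [Fact p.Prime]

/-- Index set of the variables: `x_i = X (some (false, i))`, `y_i = X (some (true, i))`
for `i` in `ℤ/p`, and `z = X none`. -/
abbrev Idx : Type := Option (Bool × ZMod p)

/-- The polynomial ring `𝔽_p[x_i, y_i, z]`. -/
abbrev Bring : Type := MvPolynomial (Idx p) (ZMod p)

/-- The cyclic shift of the indices. -/
def shift (g : ZMod p) : Equiv.Perm (Idx p) :=
  Equiv.optionCongr (Equiv.prodCongr (Equiv.refl Bool) (Equiv.addRight g))

@[simp] theorem shift_none (g : ZMod p) : shift p g none = none := rfl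
@[simp] theorem shift_some (g : ZMod p) (c : Bool) (i : ZMod p) :
    shift p g (some (c, i)) = some (c, i + g) := rfl

theorem shift_comp (g h : ZMod p) : (shift p g) ∘ (shift p h) = shift p (g + h) := by
  funext x
  rcases x with _ | ⟨c, i⟩
  · rfl
  · simp only [Function.comp_apply, shift_some]
    rw [add_assoc, add_comm h g]

theorem shift_zero : (shift p 0 : Idx p → Idx p) = id := by
  funext x
  rcases x with _ | ⟨c, i⟩
  · rfl
  · simp

/-- The action of `ℤ/p` on the polynomial ring. -/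
noncomputable def rot (g : ZMod p) : Bring p →ₐ[ZMod p] Bring p := rename (shift p g)

theorem rot_X (g : ZMod p) (i : Idx p) : rot p g (X i) = X (shift p g i) := rename_X _ _

theorem rot_rot (g h : ZMod p) (b : Bring p) : rot p g (rot p h b) = rot p (g + h) b := by
  rw [rot, rot, rot, rename_rename, shift_comp]

theorem rot_zero (b : Bring p) : rot p 0 b = b := by
  rw [rot, shift_zero, rename_id, AlgHom.id_apply]

/-- The ring of invariants. -/
noncomputable def Aring : Subalgebra (ZMod p) (Bring p) where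
  carrier := {b | ∀ g, rot p g b = b}
  mul_mem' := fun {a b} ha hb g => by rw [map_mul, ha g, hb g]
  add_mem' := fun {a b} ha hb g => by rw [map_add, ha g, hb g]
  algebraMap_mem' := fun c g => AlgHom.commutes _ _

theorem mem_Aring {b : Bring p} : b ∈ Aring p ↔ ∀ g, rot p g b = b := Iff.rfl

/-- The transfer. -/
noncomputable def tr (b : Bring p) : Bring p := ∑ g : ZMod p, rot p g b

theorem tr_mem (b : Bring p) : tr p b ∈ Aring p := by
  intro h
  rw [tr, map_sum]
  simp only [rot_rot]
  exact Equiv.sum_comp (Equiv.addLeft h) (fun g => rot p g b)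

theorem tr_mul {a : Bring p} (ha : a ∈ Aring p) (b : Bring p) : tr p (a * b) = a * tr p b := by
  rw [tr, tr, Finset.mul_sum]
  refine Finset.sum_congr rfl fun g _ => ?_
  rw [map_mul, ha g]

theorem tr_sub (a b : Bring p) : tr p (a - b) = tr p a - tr p b := by
  simp [tr, Finset.sum_sub_distrib]

noncomputable def sEl : Bring p := ∑ i : ZMod p, X (some (false, i))
noncomputable def tEl : Bring p := ∑ i : ZMod p, X (some (true, i))
noncomputable def hx : Bring p := ∑ i : ZMod p, C i * X (some (false, i))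
noncomputable def hy : Bring p := ∑ i : ZMod p, C i * X (some (true, i))
noncomputable def uEl : Bring p := tEl p * hx p - sEl p * hy p

theorem sEl_mem : sEl p ∈ Aring p := by
  intro g
  rw [sEl, map_sum]
  simp only [rot_X, shift_some]
  exact Equiv.sum_comp (Equiv.addRight g) (fun i => (X (some (false, i)) : Bring p))

theorem tEl_mem : tEl p ∈ Aring p := by
  intro g
  rw [tEl, map_sum]
  simp only [rot_X, shift_some]
  exact Equiv.sum_comp (Equiv.addRight g) (fun i => (X (some (true, i)) : Bring p))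

theorem rot_hx (g : ZMod p) : rot p g (hx p) = hx p - C g * sEl p := by
  rw [hx, map_sum, sEl, Finset.mul_sum, ← Finset.sum_sub_distrib]
  simp only [map_mul, rot_X, shift_some]
  rw [← Equiv.sum_comp (Equiv.addRight g)
    (fun i => (C i * X (some (false, i)) - C g * X (some (false, i)) : Bring p))]
  refine Finset.sum_congr rfl fun i _ => ?_
  simp only [Equiv.coe_addRight, map_add]
  have : rot p g (C i) = C i := AlgHom.commutes _ _
  rw [this]
  ring

theorem rot_hy (g : ZMod p) : rot p g (hy p) = hy p - C g * tEl p := by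
  rw [hy, map_sum, tEl, Finset.mul_sum, ← Finset.sum_sub_distrib]
  simp only [map_mul, rot_X, shift_some]
  rw [← Equiv.sum_comp (Equiv.addRight g)
    (fun i => (C i * X (some (true, i)) - C g * X (some (true, i)) : Bring p))]
  refine Finset.sum_congr rfl fun i _ => ?_
  simp only [Equiv.coe_addRight, map_add]
  have : rot p g (C i) = C i := AlgHom.commutes _ _
  rw [this]
  ring

theorem uEl_mem : uEl p ∈ Aring p := by
  intro g
  rw [uEl, map_sub, map_mul, map_mul, rot_hx, rot_hy, tEl_mem p g, sEl_mem p g]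
  ring

theorem tr_x0 : tr p (X (some (false, 0))) = sEl p := by
  rw [tr, sEl]
  simp only [rot_X, shift_some, zero_add]

theorem key_id (e : ℕ) : sEl p * uEl p ^ (p ^ e) =
    tEl p ^ (p ^ e) * tr p (X (some (false, 0)) * hx p ^ (p ^ e)) -
    sEl p ^ (p ^ e) * tr p (X (some (false, 0)) * hy p ^ (p ^ e)) := by
  have hu : uEl p ^ (p ^ e) ∈ Aring p := pow_mem (uEl_mem p) _
  have ht : tEl p ^ (p ^ e) ∈ Aring p := pow_mem (tEl_mem p) _
  have hs : sEl p ^ (p ^ e) ∈ Aring p := pow_mem (sEl_mem p) _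
  rw [← tr_mul p ht, ← tr_mul p hs, ← tr_sub]
  conv_lhs => rw [← tr_x0, mul_comm, ← tr_mul p hu]
  congr 1
  rw [uEl, sub_pow_char_pow, mul_pow, mul_pow]
  ring

/-- exponent of `x_i y_j` -/
noncomputable def cij (i j : ZMod p) : Idx p →₀ ℕ :=
  Finsupp.single (some (false, i)) 1 + Finsupp.single (some (true, j)) 1

theorem coeff_mul_s (a : Bring p) (i j : ZMod p) :
    coeff (cij p i j) (a * sEl p) = coeff (Finsupp.single (some (true, j)) 1) a := by
  rw [sEl, Finset.mul_sum, coeff_sum, Finset.sum_eq_single i]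
  · rw [coeff_mul_X', if_pos]
    · congr 1
      rw [cij, add_tsub_cancel_left]
    · rw [Finsupp.mem_support_iff, cij]
      simp
  · intro l _ hl
    rw [coeff_mul_X', if_neg]
    rw [Finsupp.mem_support_iff, cij]
    simp [Ne.symm hl]
  · intro h; exact absurd (Finset.mem_univ i) h

theorem coeff_mul_t (a : Bring p) (i j : ZMod p) :
    coeff (cij p i j) (a * tEl p) = coeff (Finsupp.single (some (false, i)) 1) a := by
  rw [tEl, Finset.mul_sum, coeff_sum, Finset.sum_eq_single j]
  · rw [coeff_mul_X', if_pos]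
    · congr 1
      rw [cij, add_tsub_cancel_right]
    · rw [Finsupp.mem_support_iff, cij]
      simp
  · intro l _ hl
    rw [coeff_mul_X', if_neg]
    rw [Finsupp.mem_support_iff, cij]
    simp [Ne.symm hl]
  · intro h; exact absurd (Finset.mem_univ j) h

theorem coeff_hx (a : Bring p) (i : ZMod p) :
    coeff (Finsupp.single (some (false, i)) 1) (a * hx p) = i * coeff 0 a := by
  rw [hx, Finset.mul_sum, coeff_sum, Finset.sum_eq_single i]
  · rw [← mul_assoc, coeff_mul_X', if_pos]
    · rw [tsub_self, mul_comm a, coeff_C_mul]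
    · rw [Finsupp.mem_support_iff]
      simp
  · intro l _ hl
    rw [← mul_assoc, coeff_mul_X', if_neg]
    rw [Finsupp.mem_support_iff]
    simp [Ne.symm hl]
  · intro h; exact absurd (Finset.mem_univ i) h

theorem coeff_hy (a : Bring p) (i : ZMod p) :
    coeff (Finsupp.single (some (true, i)) 1) (a * hy p) = i * coeff 0 a := by
  rw [hy, Finset.mul_sum, coeff_sum, Finset.sum_eq_single i]
  · rw [← mul_assoc, coeff_mul_X', if_pos]
    · rw [tsub_self, mul_comm a, coeff_C_mul]
    · rw [Finsupp.mem_support_iff]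
      simp
  · intro l _ hl
    rw [← mul_assoc, coeff_mul_X', if_neg]
    rw [Finsupp.mem_support_iff]
    simp [Ne.symm hl]
  · intro h; exact absurd (Finset.mem_univ i) h

theorem coeff_mul_u (v : Bring p) (i j : ZMod p) :
    coeff (cij p i j) (v * uEl p) = (i - j) * coeff 0 v := by
  have h1 : v * uEl p = (v * hx p) * tEl p - (v * hy p) * sEl p := by
    rw [uEl]; ring
  rw [h1, coeff_sub, coeff_mul_t, coeff_mul_s, coeff_hx, coeff_hy]
  ring

theorem coeff_inv {a : Bring p} (ha : a ∈ Aring p) (c : Bool) (i : ZMod p) :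
    coeff (Finsupp.single (some (c, i)) 1) a = coeff (Finsupp.single (some (c, 0)) 1) a := by
  have h1 := ha i
  have h2 := coeff_rename_mapDomain (shift p i) (shift p i).injective a
    (Finsupp.single (some (c, 0)) 1)
  rw [Finsupp.mapDomain_single, shift_some, zero_add] at h2
  rw [← h2]
  change _ = coeff _ (rot p i a)
  rw [h1]

theorem coeff_zero_of_mul_u {a b v : Bring p} (ha : a ∈ Aring p) (hb : b ∈ Aring p)
    (h : a * sEl p + b * tEl p = v * uEl p) : coeff 0 v = 0 := by
  have h1 : ∀ i j, (i - j) * coeff 0 v = coeff (Finsupp.single (some (true, 0)) 1) a +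
      coeff (Finsupp.single (some (false, 0)) 1) b := by
    intro i j
    rw [← coeff_mul_u, ← h, coeff_add, coeff_mul_s, coeff_mul_t, coeff_inv p ha, coeff_inv p hb]
  have h2 := h1 0 0
  have h3 := h1 1 0
  rw [sub_self, zero_mul] at h2
  rw [← h2, sub_zero, one_mul] at h3
  exact h3


theorem mem_integral (b : Bring p) : IsIntegral (Aring p) b := by
  let P : Polynomial (Bring p) := ∏ g : ZMod p, (Polynomial.X - Polynomial.C (rot p g b))
  have hP : P.Monic := Polynomial.monic_prod_of_monic _ _ fun g _ => Polynomial.monic_X_sub_C _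
  have hmap : ∀ h : ZMod p, P.map (rot p h : Bring p →+* Bring p) = P := by
    intro h
    simp only [P, Polynomial.map_prod, Polynomial.map_sub, Polynomial.map_X, Polynomial.map_C]
    have : ∀ g, (rot p h : Bring p →+* Bring p) (rot p g b) = rot p (h + g) b :=
      fun g => rot_rot p h g b
    simp only [this]
    exact Equiv.prod_comp (Equiv.addLeft h)
      (fun g => (Polynomial.X - Polynomial.C (rot p g b) : Polynomial (Bring p)))
  have hlift : P ∈ Polynomial.lifts (algebraMap (Aring p) (Bring p)) := by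
    rw [Polynomial.lifts_iff_coeff_lifts]
    intro n
    refine ⟨⟨P.coeff n, fun h => ?_⟩, rfl⟩
    have h1 := hmap h
    have h2 := Polynomial.coeff_map (rot p h : Bring p →+* Bring p) n (p := P)
    rw [h1] at h2
    exact h2.symm
  obtain ⟨Q, hQ1, _, hQ2⟩ := Polynomial.lifts_and_natDegree_eq_and_monic hlift hP
  refine ⟨Q, hQ2, ?_⟩
  rw [Polynomial.eval₂_eq_eval_map, hQ1]
  simp only [P, Polynomial.eval_prod]
  apply Finset.prod_eq_zero (Finset.mem_univ (0 : ZMod p))
  rw [rot_zero]
  simp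

instance : Algebra.IsIntegral (Aring p) (Bring p) := ⟨mem_integral p⟩

instance : Algebra.FiniteType (Aring p) (Bring p) :=
  Algebra.FiniteType.of_restrictScalars_finiteType (ZMod p) (Aring p) (Bring p)

instance : Module.Finite (Aring p) (Bring p) := Algebra.IsIntegral.finite

instance : Algebra.FiniteType (ZMod p) (Aring p) :=
  ⟨fg_of_fg_of_fg (ZMod p) (Aring p) (Bring p) Algebra.FiniteType.out Module.Finite.fg_top
    Subtype.val_injective⟩

instance : IsNoetherianRing (Aring p) := Algebra.FiniteType.isNoetherianRing (ZMod p) (Aring p)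

instance : IsIntegrallyClosed (Aring p) := by
  rw [isIntegrallyClosed_iff (FractionRing (Aring p))]
  intro x hx
  obtain ⟨a, s, hs, rfl⟩ := IsFractionRing.div_surjective (A := Aring p) x
  have hs0 : s ≠ 0 := nonZeroDivisors.ne_zero hs
  have hinj : Function.Injective (algebraMap (Aring p) (Bring p)) := Subtype.val_injective
  let f : FractionRing (Aring p) →+* FractionRing (Bring p) :=
    IsFractionRing.lift (A := Aring p) (K := FractionRing (Aring p))
      (g := (algebraMap (Bring p) (FractionRing (Bring p))).comp (algebraMap (Aring p) (Bring p)))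
      ((IsFractionRing.injective (Bring p) (FractionRing (Bring p))).comp hinj)
  have hf : ∀ a : Aring p, f (algebraMap _ _ a) = algebraMap (Bring p) _ (a : Bring p) :=
    fun a => IsFractionRing.lift_algebraMap _ a
  have h1 : IsIntegral (Bring p) (f (algebraMap _ _ a / algebraMap _ _ s)) := by
    refine IsIntegral.map_of_comp_eq (algebraMap (Aring p) (Bring p)) f ?_ hx
    ext a
    exact (hf a).symm
  obtain ⟨b, hb⟩ := IsIntegrallyClosed.isIntegral_iff.1 h1
  rw [map_div₀, hf, hf] at hb
  have hs1 : (s : Bring p) ≠ 0 := fun h => hs0 (Subtype.ext h)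
  have hs2 : algebraMap (Bring p) (FractionRing (Bring p)) (s : Bring p) ≠ 0 := by
    rw [Ne, IsFractionRing.to_map_eq_zero_iff]
    exact hs1
  rw [eq_div_iff hs2, ← map_mul] at hb
  have hb1 : b * (s : Bring p) = a := IsFractionRing.injective (Bring p) _ hb
  have hbA : b ∈ Aring p := by
    intro g
    have h2 := congrArg (rot p g) hb1
    rw [map_mul, s.2 g, a.2 g, ← hb1] at h2
    exact mul_right_cancel₀ hs1 h2
  refine ⟨⟨b, hbA⟩, ?_⟩
  have hs3 : algebraMap (Aring p) (FractionRing (Aring p)) s ≠ 0 := by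
    rw [Ne, IsFractionRing.to_map_eq_zero_iff]
    exact hs0
  rw [eq_div_iff hs3, ← map_mul]
  congr 1
  exact Subtype.ext hb1

/-- The ideal of invariants without constant term. -/
noncomputable def mA : Ideal (Aring p) :=
  RingHom.ker ((constantCoeff : Bring p →+* ZMod p).comp (algebraMap (Aring p) (Bring p)))

instance : (mA p).IsPrime := RingHom.ker_isPrime _

theorem mem_mA {a : Aring p} : a ∈ mA p ↔ coeff 0 (a : Bring p) = 0 := by
  rw [mA, RingHom.mem_ker]; rfl

/-- The splitting on the ring of invariants. -/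
noncomputable def splitA : Aring p →+ Aring p where
  toFun a := ⟨splitMap p none (a : Bring p), fun g => by
    have := splitMap_rename (p := p) (none : Idx p) (shift p g) rfl (a : Bring p)
    rw [rot, ← this]
    congr 1
    exact a.2 g⟩
  map_zero' := Subtype.ext (by simp)
  map_add' a b := Subtype.ext (by simp)

theorem splitA_pow_mul (a b : Aring p) : splitA p (a ^ p * b) = a * splitA p b :=
  Subtype.ext (splitMap_pow_mul (none : Idx p) (a : Bring p) (b : Bring p))

noncomputable def zA : Aring p := ⟨X none, fun g => by rw [rot_X]; rfl⟩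
noncomputable def sA : Aring p := ⟨sEl p, sEl_mem p⟩
noncomputable def tA : Aring p := ⟨tEl p, tEl_mem p⟩
noncomputable def uA : Aring p := ⟨uEl p, uEl_mem p⟩

theorem splitA_z : splitA p (zA p ^ (p - 1)) = 1 :=
  Subtype.ext (splitMap_X (p := p) (none : Idx p))

theorem z_mem_mA : zA p ∈ mA p := by
  rw [mem_mA]
  exact coeff_zero_X _

theorem sA_ne_zero : sA p ≠ 0 := by
  intro h
  have h1 : sEl p = 0 := congrArg Subtype.val h
  have h2 := coeff_mul_s p (X (some (true, 0))) 0 0
  rw [h1, mul_zero, coeff_zero, coeff_X, if_pos rfl] at h2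
  exact zero_ne_one h2

theorem zA_ne_zero : zA p ≠ 0 := by
  intro h
  have h1 : (X none : Bring p) = 0 := congrArg Subtype.val h
  exact X_ne_zero _ h1

theorem key_A (e : ℕ) : ∃ c d : Aring p, sA p * uA p ^ (p ^ e) =
    c * tA p ^ (p ^ e) + d * sA p ^ (p ^ e) := by
  refine ⟨⟨_, tr_mem p (X (some (false, 0)) * hx p ^ (p ^ e))⟩,
    -⟨_, tr_mem p (X (some (false, 0)) * hy p ^ (p ^ e))⟩, ?_⟩
  apply Subtype.ext
  have := key_id p e
  push_cast
  change sEl p * uEl p ^ (p ^ e) = _ * tEl p ^ (p ^ e) + -_ * sEl p ^ (p ^ e)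
  rw [this]
  ring

theorem not_mem_A {v : Aring p} (hv : v ∉ mA p) : uA p * v ∉ Ideal.span {sA p, tA p} := by
  rw [Ideal.mem_span_pair]
  rintro ⟨a, b, h⟩
  apply hv
  rw [mem_mA]
  have h1 : (a : Bring p) * sEl p + b * tEl p = v * uEl p := by
    have := congrArg Subtype.val h
    rw [mul_comm (uA p)] at this
    exact this
  exact coeff_zero_of_mul_u p a.2 b.2 h1

end inv


section final

theorem splitsAt_one_all {p : ℕ} [Fact p.Prime] {R : Type} [CommRing R] [CharP R p] {z : R}
    (h : SplitsAt p 1 (z ^ (p - 1))) : IsFPure p R := by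
  intro e
  have := splitsAt_pow h e
  rw [← one_mul (z ^ (p ^ e - 1))] at this
  exact this.of_mul

/-- Sanity check: the unit ideal of an F-pure ring has F-pure threshold `∞`. -/
theorem fpt_top {p : ℕ} [Fact p.Prime] {R : Type} [CommRing R] [CharP R p]
    (h : IsFPure p R) : fpt p (⊤ : Ideal R) = ⊤ := by
  rw [fpt, sSup_eq_top]
  intro b hb
  obtain ⟨t, ht1, _⟩ := ENNReal.lt_iff_exists_nnreal_btwn.1 hb
  refine ⟨t, ⟨t, Filter.Eventually.of_forall fun e => ⟨1, ?_, h e⟩, rfl⟩, ht1⟩
  rw [Ideal.top_pow]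
  exact Submodule.mem_top

/-- The construction for a domain `A` of finite type over `𝔽_p`, localized at a prime `m`. -/
theorem main_general (p : ℕ) [Fact p.Prime] {A : Type} [CommRing A] [IsDomain A]
    [Algebra (ZMod p) A] [Algebra.FiniteType (ZMod p) A] [IsIntegrallyClosed A]
    (m : Ideal A) [m.IsPrime] (z s t u : A) (hzm : z ∈ m) (hz0 : z ≠ 0) (hs0 : s ≠ 0)
    (φ : A →+ A) (hφ : ∀ a b : A, φ (a ^ p * b) = a * φ b) (hφz : φ (z ^ (p - 1)) = 1)
    (hkey : ∀ e : ℕ, ∃ c d : A, s * u ^ (p ^ e) = c * t ^ (p ^ e) + d * s ^ (p ^ e))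
    (hnot : ∀ v : A, v ∉ m → u * v ∉ Ideal.span {s, t}) :
    ∃ (R : Type) (_ : CommRing R) (_ : CharP R p) (_ : IsLocalRing R),
      IsNoetherianRing R ∧ IsDomain R ∧ IsIntegrallyClosed R ∧
      (frobenius R p).Finite ∧ IsFPure p R ∧
      ∃ I : ℕ → Ideal R, IsGradedSequence I ∧
        (∀ m, 1 ≤ m → I m ≤ IsLocalRing.maximalIdeal R) ∧
        ¬ ∃ L : ℝ≥0∞, Tendsto (fun m : ℕ => (m : ℝ≥0∞) * fpt p (I m)) atTop (𝓝 L) := by
  have hM := m.primeCompl_le_nonZeroDivisors
  have injR : Function.Injective (algebraMap A (Localization.AtPrime m)) :=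
    IsLocalization.injective _ hM
  have charA : CharP A p :=
    charP_of_injective_algebraMap (FaithfulSMul.algebraMap_injective (ZMod p) A) p
  have domR : IsDomain (Localization.AtPrime m) := IsLocalization.isDomain_localization hM
  have charR : CharP (Localization.AtPrime m) p := charP_of_injective_algebraMap injR p
  have noethA : IsNoetherianRing A := Algebra.FiniteType.isNoetherianRing (ZMod p) A
  have noethR : IsNoetherianRing (Localization.AtPrime m) :=
    IsLocalization.isNoetherianRing m.primeCompl _ inferInstance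
  have intR : IsIntegrallyClosed (Localization.AtPrime m) :=
    isIntegrallyClosed_of_isLocalization _ m.primeCompl hM
  have frobR : (frobenius (Localization.AtPrime m) p).Finite :=
    frobenius_finite_loc _ frobenius_finite_of_finiteType
  have splitR : SplitsAt p 1 ((algebraMap A (Localization.AtPrime m) z) ^ (p - 1)) := by
    rw [splitsAt_iff]
    obtain ⟨Φ, h1, h2⟩ := exists_loc_map (p := p) m.primeCompl φ hφ
    refine ⟨Φ, fun a b => by rw [pow_one]; exact h1 a b, ?_⟩
    rw [← map_pow, h2, hφz, map_one]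
  have z_mem : algebraMap A (Localization.AtPrime m) z ∈
      IsLocalRing.maximalIdeal (Localization.AtPrime m) :=
    (IsLocalization.AtPrime.to_map_mem_maximal_iff (Localization.AtPrime m) m z).2 hzm
  have not_mem : algebraMap A (Localization.AtPrime m) u ∉
      (Ideal.span {s, t}).map (algebraMap A (Localization.AtPrime m)) := by
    rw [IsLocalization.mem_map_algebraMap_iff m.primeCompl]
    rintro ⟨⟨⟨a, ha⟩, v⟩, hv⟩
    simp only [← map_mul] at hv
    have h1 := injR hv
    apply hnot v v.2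
    rw [h1]
    exact ha
  have mem_frob : ∀ e : ℕ, algebraMap A (Localization.AtPrime m) s *
      (algebraMap A (Localization.AtPrime m) u) ^ (p ^ e) ∈
      ((Ideal.span {s, t}).map (algebraMap A (Localization.AtPrime m))).map
        (iterateFrobenius (Localization.AtPrime m) p e) := by
    intro e
    obtain ⟨c, d, h⟩ := hkey e
    rw [← map_pow, ← map_mul, h, map_add, map_mul, map_mul, map_pow, map_pow]
    apply Ideal.add_mem
    · apply Ideal.mul_mem_left
      rw [← iterateFrobenius_def]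
      apply Ideal.mem_map_of_mem
      apply Ideal.mem_map_of_mem
      exact Ideal.subset_span (by simp)
    · apply Ideal.mul_mem_left
      rw [← iterateFrobenius_def]
      apply Ideal.mem_map_of_mem
      apply Ideal.mem_map_of_mem
      exact Ideal.subset_span (by simp)
  have hz : algebraMap A (Localization.AtPrime m) z ≠ 0 := by
    rw [Ne, map_eq_zero_iff _ injR]; exact hz0
  have hs : algebraMap A (Localization.AtPrime m) s ≠ 0 := by
    rw [Ne, map_eq_zero_iff _ injR]; exact hs0
  refine ⟨Localization.AtPrime m, inferInstance, charR, inferInstance, noethR, domR, intR, frobR,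
    splitsAt_one_all splitR,
    seq (algebraMap A (Localization.AtPrime m) z) (algebraMap A (Localization.AtPrime m) s),
    ⟨?_, fun m n _ _ => seq_mul _ _ m n⟩, ?_,
    no_limit z_mem splitR not_mem mem_frob⟩
  · intro k _
    unfold seq
    split_ifs
    · refine ⟨_, Ideal.mem_span_singleton_self _, ?_⟩
      intro P hP
      rw [IsDomain.minimalPrimes_eq_singleton_bot, Set.mem_singleton_iff] at hP
      rw [hP, Ideal.mem_bot]
      exact pow_ne_zero _ hz
    · refine ⟨_, Ideal.mem_span_singleton_self _, ?_⟩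
      intro P hP
      rw [IsDomain.minimalPrimes_eq_singleton_bot, Set.mem_singleton_iff] at hP
      rw [hP, Ideal.mem_bot]
      exact mul_ne_zero (pow_ne_zero _ hz) hs
  · intro k hk
    have h1 : (algebraMap A (Localization.AtPrime m) z) ^ k ∈
        IsLocalRing.maximalIdeal (Localization.AtPrime m) :=
      Ideal.pow_mem_of_mem _ z_mem k hk
    unfold seq
    split_ifs
    · rw [Ideal.span_singleton_le_iff_mem]
      exact h1
    · rw [Ideal.span_singleton_le_iff_mem]
      exact Ideal.mul_mem_right _ _ h1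

/-- For every prime `p` there are a Noetherian local F-finite F-pure normal domain `R` of
characteristic `p` and a graded sequence `I` of proper ideals of `R` such that
`m * fpt (I m)` has no limit in `[0, ∞]`. -/
theorem result (p : ℕ) [Fact p.Prime] :
    ∃ (R : Type) (_ : CommRing R) (_ : CharP R p) (_ : IsLocalRing R),
      IsNoetherianRing R ∧ IsDomain R ∧ IsIntegrallyClosed R ∧
      (frobenius R p).Finite ∧ IsFPure p R ∧
      ∃ I : ℕ → Ideal R, IsGradedSequence I ∧
        (∀ m, 1 ≤ m → I m ≤ IsLocalRing.maximalIdeal R) ∧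
        ¬ ∃ L : ℝ≥0∞, Tendsto (fun m : ℕ => (m : ℝ≥0∞) * fpt p (I m)) atTop (𝓝 L) :=
  main_general p (mA p) (zA p) (sA p) (tA p) (uA p) (z_mem_mA p) (zA_ne_zero p) (sA_ne_zero p)
    (splitA p) (splitA_pow_mul p) (splitA_z p) (key_A p) (fun v hv => not_mem_A p hv)

end final

end Pool.Agent.Results.MP_80c6d6_ag.NormalDomain
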