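import Mathlib

set_option autoImplicit false
set_option linter.unusedVariables false
set_option linter.unusedSectionVars false

open Filter Topology
open scoped ENNReal NNReal

namespace Pool.Agent.Results.MP_80c6d6_ag.StronglyFRegular

/-- The `R`-linear map `R → R^{1/p^e}`, `1 ↦ d^{1/p^e}`, splits.

An `R`-linear map `ψ : R^{1/p^e} → R` is the same thing as an additive map `φ : R → R` with
`φ (r^{p^e} x) = r φ x`, via `ψ (x^{1/p^e}) = φ x`; it is a splitting exactly when `φ d = 1`.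
See `splitsAt_iff_module` below for the version with modules. -/
def SplitsAt (p e : ℕ) {R : Type} [CommRing R] (d : R) : Prop :=
  ∃ φ : R →+ R, (∀ r x : R, φ (r ^ (p ^ e) * x) = r * φ x) ∧ φ d = 1

/-- The pair `(R, a^t)` is F-pure (for a local ring `R`): for all large `e` there is
`d ∈ a^⌈t (p^e - 1)⌉` such that `R → R^{1/p^e}`, `1 ↦ d^{1/p^e}` splits. -/
def PairFPure (p : ℕ) {R : Type} [CommRing R] (a : Ideal R) (t : ℝ≥0) : Prop :=
  ∀ᶠ e : ℕ in atTop, ∃ d ∈ a ^ ⌈(t : ℝ) * ((p : ℝ) ^ e - 1)⌉₊, SplitsAt p e d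

/-- The F-pure threshold, as an element of `[0, ∞]`. -/
noncomputable def fpt (p : ℕ) {R : Type} [CommRing R] (a : Ideal R) : ℝ≥0∞ :=
  sSup {x : ℝ≥0∞ | ∃ t : ℝ≥0, PairFPure p a t ∧ x = (t : ℝ≥0∞)}

/-- `R` is F-pure (for F-finite Noetherian rings: all maps `R → R^{1/p^e}` split). -/
def IsFPure (p : ℕ) (R : Type) [CommRing R] : Prop :=
  ∀ e : ℕ, SplitsAt p e (1 : R)

/-- `R` is strongly F-regular: for every `c` in `R°` (outside every minimal prime) there is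
`e ≥ 1` such that `R → R^{1/p^e}`, `1 ↦ c^{1/p^e}` splits. -/
def IsStronglyFRegular (p : ℕ) (R : Type) [CommRing R] : Prop :=
  ∀ c : R, (∀ P ∈ minimalPrimes R, c ∉ P) → ∃ e, 1 ≤ e ∧ SplitsAt p e c

/-- `a` meets `R°`, the set of elements in no minimal prime. -/
def MeetsRo {R : Type} [CommRing R] (a : Ideal R) : Prop :=
  ∃ x ∈ a, ∀ P ∈ minimalPrimes R, x ∉ P

/-- Graded sequences of ideals `(I_m)_{m ≥ 1}`. -/
def IsGradedSequence {R : Type} [CommRing R] (I : ℕ → Ideal R) : Prop :=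
  (∀ m, 1 ≤ m → MeetsRo (I m)) ∧ ∀ m n, 1 ≤ m → 1 ≤ n → I m * I n ≤ I (m + n)

section sanity

/-- The ring `R` regarded as an `R`-module through the `e`-th iterated Frobenius,
i.e. `F^e_* R`, which is `R^{1/p^e}` (an element `x` stands for `x^{1/p^e}`). -/
def FPush (p e : ℕ) (R : Type) : Type := R

/-- The element `x^{1/p^e}` of `R^{1/p^e}`. -/
def root (p e : ℕ) {R : Type} (x : R) : FPush p e R := x

instance (p e : ℕ) (R : Type) [CommRing R] : AddCommGroup (FPush p e R) :=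
  inferInstanceAs (AddCommGroup R)

/-- `r` acts on `R^{1/p^e}` by `r • x^{1/p^e} = (r^{p^e} x)^{1/p^e}`. -/
noncomputable instance (p e : ℕ) (R : Type) [CommRing R] [Fact p.Prime] [CharP R p] :
    Module R (FPush p e R) :=
  Module.compHom R (iterateFrobenius R p e)

variable {p : ℕ} [Fact p.Prime] {R : Type} [CommRing R] [CharP R p]

/-- The `R`-linear map `R → R^{1/p^e}`, `1 ↦ d^{1/p^e}`. -/
noncomputable def mapOne (e : ℕ) (d : R) : R →ₗ[R] FPush p e R :=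
  LinearMap.toSpanSingleton R (FPush p e R) (root p e d)

theorem smul_root (e : ℕ) (r x : R) :
    r • root p e x = root p e (r ^ (p ^ e) * x) := by
  rfl

theorem mapOne_one (e : ℕ) (d : R) :
    mapOne (p := p) e d 1 = root p e d := by
  simp [mapOne]

/-- Sanity check: `SplitsAt` says that `1 ↦ d^{1/p^e}` has an `R`-linear left inverse. -/
theorem splitsAt_iff_module (e : ℕ) (d : R) :
    SplitsAt p e d ↔ ∃ ψ : FPush p e R →ₗ[R] R, ψ ∘ₗ mapOne e d = LinearMap.id := by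
  constructor
  · rintro ⟨φ, h1, h2⟩
    let ψ : FPush p e R →ₗ[R] R :=
      { toFun := fun x => φ x
        map_add' := fun x y => φ.map_add x y
        map_smul' := fun r x => h1 r x }
    refine ⟨ψ, ?_⟩
    apply LinearMap.ext_ring
    rw [LinearMap.comp_apply, mapOne_one]
    exact h2
  · rintro ⟨ψ, hψ⟩
    refine ⟨{ toFun := fun x => ψ (root p e x), map_zero' := ψ.map_zero,
              map_add' := fun x y => ψ.map_add (root p e x) (root p e y) },
            fun a b => ?_, ?_⟩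
    · exact ψ.map_smul a (root p e b)
    · have := LinearMap.congr_fun hψ 1
      rw [LinearMap.comp_apply, mapOne_one] at this
      exact this

end sanity


section basic

variable {p : ℕ} [Fact p.Prime] {R : Type} [CommRing R]

theorem splitsAt_iff (e : ℕ) (d : R) :
    SplitsAt p e d ↔
      ∃ φ : R →+ R, (∀ a b : R, φ (a ^ (p ^ e) * b) = a * φ b) ∧ φ d = 1 := Iff.rfl

theorem SplitsAt.comp {e₁ e₂ : ℕ} {f c : R} (h₁ : SplitsAt p e₁ f) (h₂ : SplitsAt p e₂ c) :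
    SplitsAt p (e₁ + e₂) (f ^ (p ^ e₂) * c) := by
  rw [splitsAt_iff] at *
  obtain ⟨φ₁, a₁, b₁⟩ := h₁
  obtain ⟨φ₂, a₂, b₂⟩ := h₂
  refine ⟨φ₁.comp φ₂, fun a b => ?_, ?_⟩
  · rw [AddMonoidHom.comp_apply, pow_add, pow_mul, a₂, a₁]; rfl
  · rw [AddMonoidHom.comp_apply, a₂, b₂, mul_one, b₁]

theorem SplitsAt.of_mul {e : ℕ} {d d' : R} (h : SplitsAt p e (d * d')) : SplitsAt p e d := by
  rw [splitsAt_iff] at *
  obtain ⟨φ, a₁, b₁⟩ := h
  refine ⟨φ.comp (AddMonoidHom.mulLeft d'), fun a b => ?_, ?_⟩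
  · simp only [AddMonoidHom.comp_apply, AddMonoidHom.coe_mulLeft]
    rw [← a₁]; ring_nf
  · simp only [AddMonoidHom.comp_apply, AddMonoidHom.coe_mulLeft]
    rw [mul_comm, b₁]

theorem splitsAt_zero_one : SplitsAt p 0 (1 : R) := by
  rw [splitsAt_iff]
  exact ⟨AddMonoidHom.id R, fun a b => by simp, rfl⟩


theorem tendsto_pow_atTop : Tendsto (fun e : ℕ => (p : ℝ) ^ e) atTop atTop :=
  tendsto_pow_atTop_atTop_of_one_lt (by exact_mod_cast (Fact.out : p.Prime).one_lt)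

theorem SplitsAt.of_pow [CharP R p] {n k : ℕ} {d : R} (h : SplitsAt p (n + k) (d ^ (p ^ k))) :
    SplitsAt p n d := by
  rw [splitsAt_iff] at *
  obtain ⟨φ, a₁, b₁⟩ := h
  refine ⟨φ.comp (iterateFrobenius R p k : R →+* R).toAddMonoidHom, fun a b => ?_, ?_⟩
  · simp only [AddMonoidHom.comp_apply, RingHom.toAddMonoidHom_eq_coe, AddMonoidHom.coe_coe,
      iterateFrobenius_def]
    rw [mul_pow, ← pow_mul, ← pow_add, a₁]
  · simp only [AddMonoidHom.comp_apply, RingHom.toAddMonoidHom_eq_coe, AddMonoidHom.coe_coe,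
      iterateFrobenius_def]
    exact b₁

theorem isFPure_of_regular [CharP R p] (h : IsStronglyFRegular p R)
    (h1 : ∀ P ∈ minimalPrimes R, (1 : R) ∉ P) : IsFPure p R := by
  obtain ⟨e, he, hs⟩ := h 1 h1
  have h2 : ∀ n, SplitsAt p (n * e) (1 : R) := by
    intro n
    induction n with
    | zero => simpa using splitsAt_zero_one (p := p) (R := R)
    | succ n ih =>
      have := ih.comp hs
      rw [one_pow, one_mul] at this
      rwa [Nat.succ_mul]
  intro n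
  have h3 : n ≤ n * e := Nat.le_mul_of_pos_right n he
  obtain ⟨k, hk⟩ := Nat.exists_eq_add_of_le h3
  have h4 := h2 n
  rw [hk, ← one_pow (p ^ k)] at h4
  exact h4.of_pow

/-- Iterating a splitting: exponents `1 + Q + ... + Q^{n-1}` with `Q = p^E`. -/
def geo (Q : ℕ) : ℕ → ℕ
  | 0 => 0
  | n + 1 => Q * geo Q n + 1

theorem geo_mul (Q n : ℕ) : (geo Q n : ℝ) * ((Q : ℝ) - 1) = (Q : ℝ) ^ n - 1 := by
  induction n with
  | zero => simp [geo]
  | succ n ih =>
    simp only [geo]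
    push_cast
    rw [pow_succ]
    linear_combination (Q : ℝ) * ih

theorem splitsAt_geo {E : ℕ} {g : R} (h : SplitsAt p E g) (n : ℕ) :
    SplitsAt p (n * E) (g ^ geo (p ^ E) n) := by
  induction n with
  | zero => simpa [geo] using splitsAt_zero_one (p := p) (R := R)
  | succ n ih =>
    have := ih.comp h
    rw [← pow_mul, ← pow_succ] at this
    rw [Nat.succ_mul, geo, mul_comm (p ^ E)]
    exact this

theorem splitsAt_geo_all {E : ℕ} {g : R} (h : SplitsAt p E g) (hF : IsFPure p R) (n i : ℕ) :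
    SplitsAt p (n * E + i) (g ^ (geo (p ^ E) n * p ^ i)) := by
  have := (splitsAt_geo h n).comp (hF i)
  rwa [← pow_mul, mul_one] at this

theorem seq_pow_le {I : ℕ → Ideal R} (hI : IsGradedSequence I) {k : ℕ} (hk : 1 ≤ k) (j : ℕ)
    {r : ℕ} (hr : 1 ≤ r) : I k ^ j * I r ≤ I (k * j + r) := by
  induction j with
  | zero => simp
  | succ j ih =>
    calc I k ^ (j + 1) * I r = I k * (I k ^ j * I r) := by rw [pow_succ']; ring
      _ ≤ I k * I (k * j + r) := Ideal.mul_mono_right ih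
      _ ≤ I (k + (k * j + r)) := hI.2 _ _ hk (by omega)
      _ = I (k * (j + 1) + r) := by congr 1; ring

/-- the core estimate -/
theorem pair_core [CharP R p] (hR : IsStronglyFRegular p R) (hF : IsFPure p R) {I : ℕ → Ideal R}
    (hI : IsGradedSequence I) {k : ℕ} (hk : 1 ≤ k) {t s : ℝ≥0} (hst : s < t)
    (ht : PairFPure p (I k) t) :
    ∃ J : ℕ, 0 < J ∧ ∀ j, J ≤ j → ∀ r, k ≤ r → r < 2 * k →
      PairFPure p (I (k * j + r)) (s / j) := by
  classical
  have hp1 : (1 : ℝ) < p := by exact_mod_cast (Fact.out : p.Prime).one_lt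
  -- a common multiplier
  have hc : ∃ c : R, (∀ P ∈ minimalPrimes R, c ∉ P) ∧ ∀ r, k ≤ r → r < 2 * k → c ∈ I r := by
    have h1 : ∀ r : ℕ, ∃ c : R, (∀ P ∈ minimalPrimes R, c ∉ P) ∧ (1 ≤ r → c ∈ I r) := by
      intro r
      by_cases hr : 1 ≤ r
      · obtain ⟨x, hx, hx'⟩ := hI.1 r hr
        exact ⟨x, hx', fun _ => hx⟩
      · refine ⟨1, fun P hP h1 => ?_, fun h => absurd h hr⟩
        exact hP.1.1.ne_top ((Ideal.eq_top_iff_one _).2 h1)
    choose c hc1 hc2 using h1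
    refine ⟨∏ r ∈ Finset.Ico k (2 * k), c r, ?_, ?_⟩
    · intro P hP hmem
      have hprime : P.IsPrime := hP.1.1
      rw [Ideal.IsPrime.prod_mem_iff] at hmem
      obtain ⟨r, _, hr⟩ := hmem
      exact hc1 r P hP hr
    · intro r hr1 hr2
      rw [← Finset.mul_prod_erase _ _ (Finset.mem_Ico.2 ⟨hr1, hr2⟩)]
      exact Ideal.mul_mem_right _ _ (hc2 r (by omega))
  obtain ⟨c, hc1, hc2⟩ := hc
  obtain ⟨e₀, he₀, hce⟩ := hR c hc1
  -- choose the level of `f`
  set s' : ℝ := ((s : ℝ) + t) / 2 with hs'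
  have hst' : (s : ℝ) < t := hst
  have hs0 : (0 : ℝ) ≤ s := s.2
  have hss' : (s : ℝ) < s' := by rw [hs']; linarith
  have hs't : s' < t := by rw [hs']; linarith
  have h2 : ∀ᶠ e : ℕ in atTop, (t : ℝ) / (t - s') ≤ (p : ℝ) ^ e :=
    (tendsto_pow_atTop (p := p)).eventually_ge_atTop _
  obtain ⟨e₁, he₁, f, hf, hfs⟩ := (h2.and ht).exists
  have hq : s' * (p : ℝ) ^ e₁ ≤ t * ((p : ℝ) ^ e₁ - 1) := by
    rw [div_le_iff₀ (by linarith)] at he₁
    nlinarith
  set E := e₁ + e₀ with hE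
  set Q : ℕ := p ^ E with hQ
  set g : R := f ^ (p ^ e₀) * c with hg
  have hgs : SplitsAt p E g := hfs.comp hce
  have hE0 : 0 < E := by omega
  have hQ1 : (1 : ℝ) < (Q : ℝ) := by
    rw [hQ]; push_cast
    exact one_lt_pow₀ hp1 (by omega)
  -- choose `J`
  obtain ⟨J₀, hJ₀⟩ := exists_nat_ge (2 * (s : ℝ) * ((Q : ℝ) - 1))
  refine ⟨J₀ + 1, by omega, fun j hj r hr1 hr2 => ?_⟩
  have hjpos : (0 : ℝ) < j := by
    have : 0 < j := by omega
    exact_mod_cast this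
  have hjJ : 2 * (s : ℝ) * ((Q : ℝ) - 1) ≤ j := by
    refine hJ₀.trans ?_
    exact_mod_cast (by omega : J₀ ≤ j)
  -- large levels
  have h3 : ∀ᶠ e : ℕ in atTop, max (4 * (Q : ℝ)) (((j : ℝ) + s' * Q) / (s' - s)) ≤ (p : ℝ) ^ e :=
    (tendsto_pow_atTop (p := p)).eventually_ge_atTop _
  filter_upwards [h3] with e he
  have he4 : 4 * (Q : ℝ) ≤ (p : ℝ) ^ e := (le_max_left _ _).trans he
  have he5 : (j : ℝ) + s' * Q ≤ (p : ℝ) ^ e * (s' - s) := by
    have := (le_max_right _ _).trans he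
    rwa [div_le_iff₀ (by linarith)] at this
  obtain ⟨n, i, hi, hei⟩ : ∃ n i, i < E ∧ e = n * E + i :=
    ⟨e / E, e % E, Nat.mod_lt _ hE0, by rw [mul_comm]; exact (Nat.div_add_mod e E).symm⟩
  set N := ⌈((s / j : ℝ≥0) : ℝ) * ((p : ℝ) ^ e - 1)⌉₊ with hN
  set w := geo Q n * p ^ i with hw
  have hwval : (w : ℝ) * ((Q : ℝ) - 1) = (p : ℝ) ^ e - (p : ℝ) ^ i := by
    rw [hw]; push_cast
    rw [mul_right_comm, geo_mul, hei, pow_add, pow_mul]
    have : ((p : ℝ) ^ n) ^ E = (Q : ℝ) ^ n := by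
      rw [hQ]; push_cast; rw [← pow_mul, ← pow_mul, mul_comm]
    rw [this]; ring
  have hpi : (p : ℝ) ^ i ≤ Q := by
    rw [hQ]; push_cast
    exact pow_le_pow_right₀ hp1.le hi.le
  have hPpos : (0 : ℝ) < (p : ℝ) ^ e := by positivity
  have hNlt : (N : ℝ) < (s : ℝ) / j * ((p : ℝ) ^ e - 1) + 1 := by
    have := Nat.ceil_lt_add_one (a := ((s / j : ℝ≥0) : ℝ) * ((p : ℝ) ^ e - 1)) (by
      apply mul_nonneg (NNReal.coe_nonneg _); linarith)
    rw [← hN] at this
    push_cast at this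
    exact this
  have hNw : N ≤ w := by
    have h5 : (s : ℝ) / j * ((p : ℝ) ^ e - 1) + 1 ≤ w := by
      have h6 : (s : ℝ) / j * (2 * ((Q : ℝ) - 1)) ≤ 1 := by
        rw [div_mul_eq_mul_div, div_le_one hjpos]; linarith
      have h7 : ((s : ℝ) / j * ((p : ℝ) ^ e - 1) + 1) * (2 * ((Q : ℝ) - 1)) ≤
          w * (2 * ((Q : ℝ) - 1)) := by
        have h8 : (s : ℝ) / j * ((p : ℝ) ^ e - 1) * (2 * ((Q : ℝ) - 1)) ≤ (p : ℝ) ^ e - 1 := by
          have : (s : ℝ) / j * ((p : ℝ) ^ e - 1) * (2 * ((Q : ℝ) - 1)) =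
            ((s : ℝ) / j * (2 * ((Q : ℝ) - 1))) * ((p : ℝ) ^ e - 1) := by ring
          rw [this]
          have h9 : 0 ≤ (p : ℝ) ^ e - 1 := by linarith
          nlinarith
        nlinarith
      exact le_of_mul_le_mul_right h7 (by linarith)
    exact_mod_cast (hNlt.trans_le h5).le
  have hNf : j * N ≤ ⌈(t : ℝ) * ((p : ℝ) ^ e₁ - 1)⌉₊ * (p ^ e₀ * w) := by
    have h5 : (t : ℝ) * ((p : ℝ) ^ e₁ - 1) ≤ (⌈(t : ℝ) * ((p : ℝ) ^ e₁ - 1)⌉₊ : ℝ) :=
      Nat.le_ceil _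
    have h6 : (j : ℝ) * N ≤ s * ((p : ℝ) ^ e - 1) + j := by
      have : (j : ℝ) * N ≤ j * ((s : ℝ) / j * ((p : ℝ) ^ e - 1) + 1) :=
        mul_le_mul_of_nonneg_left hNlt.le hjpos.le
      have h7 : (j : ℝ) * ((s : ℝ) / j * ((p : ℝ) ^ e - 1) + 1) = s * ((p : ℝ) ^ e - 1) + j := by
        field_simp
      linarith
    have h8 : s' * ((p : ℝ) ^ e - Q) ≤ s' * (p : ℝ) ^ e₁ * ((p : ℝ) ^ e₀ * w) := by
      have h9 : (Q : ℝ) = (p : ℝ) ^ e₁ * (p : ℝ) ^ e₀ := by
        rw [hQ, hE]; push_cast; rw [pow_add]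
      have h10 : (p : ℝ) ^ e - Q ≤ (Q : ℝ) * w := by
        have : (0 : ℝ) ≤ w := by positivity
        nlinarith
      have h11 : s' * (p : ℝ) ^ e₁ * ((p : ℝ) ^ e₀ * w) = s' * (Q * w) := by rw [h9]; ring
      rw [h11]
      exact mul_le_mul_of_nonneg_left h10 (by linarith)
    have h12 : s' * (p : ℝ) ^ e₁ * ((p : ℝ) ^ e₀ * w) ≤
        (⌈(t : ℝ) * ((p : ℝ) ^ e₁ - 1)⌉₊ : ℝ) * ((p : ℝ) ^ e₀ * w) :=
      mul_le_mul_of_nonneg_right (hq.trans h5) (by positivity)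
    have h13 : (j : ℝ) * N ≤ (⌈(t : ℝ) * ((p : ℝ) ^ e₁ - 1)⌉₊ : ℝ) * ((p : ℝ) ^ e₀ * w) := by
      have : s * ((p : ℝ) ^ e - 1) + j ≤ s' * ((p : ℝ) ^ e - Q) := by nlinarith
      linarith
    exact_mod_cast h13
  refine ⟨g ^ w, ?_, ?_⟩
  · have h14 : I k ^ (j * N) * I r ^ N ≤ I (k * j + r) ^ N := by
      rw [pow_mul, ← mul_pow]
      exact Ideal.pow_right_mono (seq_pow_le hI hk j (by omega)) N
    apply h14
    have h15 : g ^ w = f ^ (p ^ e₀ * w) * c ^ w := by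
      rw [hg, mul_pow, ← pow_mul]
    rw [h15]
    apply Ideal.mul_mem_mul
    · have h16 : f ^ (p ^ e₀ * w) ∈ I k ^ (⌈(t : ℝ) * ((p : ℝ) ^ e₁ - 1)⌉₊ * (p ^ e₀ * w)) := by
        rw [pow_mul (I k)]
        exact Ideal.pow_mem_pow hf _
      exact Ideal.pow_le_pow_right hNf h16
    · have h17 : c ^ w ∈ I r ^ w := Ideal.pow_mem_pow (hc2 r hr1 hr2) _
      exact Ideal.pow_le_pow_right hNw h17
  · have := splitsAt_geo_all hgs hF n i
    rw [← hei] at this
    exact this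

/-- `fpt` of the unit ideal of an F-pure ring is `∞` (sanity check). -/
theorem fpt_top (h : IsFPure p R) : fpt p (⊤ : Ideal R) = ⊤ := by
  rw [fpt, sSup_eq_top]
  intro b hb
  obtain ⟨t, ht1, _⟩ := ENNReal.lt_iff_exists_nnreal_btwn.1 hb
  refine ⟨t, ⟨t, Filter.Eventually.of_forall fun e => ⟨1, ?_, h e⟩, rfl⟩, ht1⟩
  rw [Ideal.top_pow]
  exact Submodule.mem_top

end basic

/-- Over a Noetherian F-finite strongly F-regular local ring of characteristic `p`, for every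
graded sequence of ideals the limit of `m * fpt (I m)` exists in `[0, ∞]`; it is the supremum of
the sequence. -/
theorem result (p : ℕ) [Fact p.Prime] (R : Type) [CommRing R] [CharP R p] [IsLocalRing R]
    [IsNoetherianRing R] (_hfin : (frobenius R p).Finite) (hR : IsStronglyFRegular p R)
    (I : ℕ → Ideal R) (hI : IsGradedSequence I) :
    Tendsto (fun m : ℕ => (m : ℝ≥0∞) * fpt p (I m)) atTop
      (𝓝 (⨆ m : ℕ, ⨆ _ : 1 ≤ m, (m : ℝ≥0∞) * fpt p (I m))) := by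
  have hF : IsFPure p R := isFPure_of_regular hR fun P hP h1 =>
    hP.1.1.ne_top ((Ideal.eq_top_iff_one _).2 h1)
  rw [tendsto_order]
  constructor
  · intro a ha
    obtain ⟨k, hk'⟩ := lt_iSup_iff.1 ha
    obtain ⟨hk, hk2⟩ := lt_iSup_iff.1 hk'
    have hk0 : (k : ℝ≥0∞) ≠ 0 := by exact_mod_cast (by omega : k ≠ 0)
    have hktop : (k : ℝ≥0∞) ≠ ⊤ := ENNReal.natCast_ne_top _
    have h1 : a / k < fpt p (I k) := by
      rw [ENNReal.div_lt_iff (Or.inl hk0) (Or.inl hktop), mul_comm]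
      exact hk2
    rw [fpt] at h1
    obtain ⟨x, ⟨t, ht, rfl⟩, hx⟩ := lt_sSup_iff.1 h1
    obtain ⟨s, hs1, hs2⟩ := ENNReal.lt_iff_exists_nnreal_btwn.1 hx
    rw [ENNReal.coe_lt_coe] at hs2
    obtain ⟨J, hJ, hJ'⟩ := pair_core hR hF hI hk hs2 ht
    rw [eventually_atTop]
    refine ⟨k * (J + 2), fun m hm => ?_⟩
    have hkpos : 0 < k := hk
    have hj2 : J + 2 ≤ m / k := by
      rw [Nat.le_div_iff_mul_le hkpos, mul_comm]; exact hm
    set j := m / k - 1 with hj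
    have hr : m % k < k := Nat.mod_lt _ hkpos
    have hm2 : m = k * j + (k + m % k) := by
      have h2 := Nat.div_add_mod m k
      have h3 : k * (m / k) = k * j + k := by
        have : m / k = j + 1 := by omega
        rw [this]; ring
      omega
    have h4 := hJ' j (by omega) (k + m % k) (by omega) (by omega)
    rw [← hm2] at h4
    have h5 : ((s / j : ℝ≥0) : ℝ≥0∞) ≤ fpt p (I m) := le_sSup ⟨_, h4, rfl⟩
    have hj0 : (j : ℝ≥0) ≠ 0 := by exact_mod_cast (by omega : j ≠ 0)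
    calc a < (k : ℝ≥0∞) * s := by
            rw [ENNReal.div_lt_iff (Or.inl hk0) (Or.inl hktop), mul_comm] at hs1
            exact hs1
      _ ≤ (m : ℝ≥0∞) * ((s / j : ℝ≥0) : ℝ≥0∞) := by
            have h6 : (k : ℝ≥0) * s ≤ m * (s / j) := by
              rw [mul_div_assoc', le_div_iff₀ (pos_iff_ne_zero.2 hj0)]
              have h7 : (k : ℝ≥0) * j ≤ m := by exact_mod_cast (by omega : k * j ≤ m)
              calc (k : ℝ≥0) * s * j = (k * j) * s := by ring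
                _ ≤ m * s := mul_le_mul_of_nonneg_right h7 (zero_le)
            exact_mod_cast h6
      _ ≤ (m : ℝ≥0∞) * fpt p (I m) := mul_le_mul_of_nonneg_left h5 (zero_le)
  · intro a ha
    filter_upwards [eventually_ge_atTop 1] with m hm
    refine lt_of_le_of_lt ?_ ha
    exact le_iSup₂ (f := fun (m : ℕ) (_ : 1 ≤ m) => (m : ℝ≥0∞) * fpt p (I m)) m hm

end Pool.Agent.Results.MP_80c6d6_ag.StronglyFRegular
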